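import Pool.Agent.H888.WA.V14
import Pool.Agent.H888.DH.Loc11

open Filter Topology

namespace Pool.Agent.Results.MP_83e36b_nt.DiagonalWeakApprox100

/-- The projective hypersurface `∑ aᵢ xᵢ ^ k = 0` has a point over the field `F`. -/
def HasPoint (F : Type) [Field F] (k s : ℕ) (a : Fin s → ℤ) : Prop :=
  ∃ x : Fin s → F, x ≠ 0 ∧ ∑ i, (a i : F) * x i ^ k = 0

/-- Everywhere locally soluble: points over `ℝ` and over `ℚ_p` for every prime `p`. -/
def ELS (k s : ℕ) (a : Fin s → ℤ) : Prop :=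
  HasPoint ℝ k s a ∧ ∀ (p : ℕ) [Fact p.Prime], HasPoint ℚ_[p] k s a

/-- Everywhere locally soluble smooth diagonal hypersurfaces with coefficients bounded by `H`. -/
def elsSet (k s H : ℕ) : Set (Fin s → ℤ) :=
  {a | (∀ i, a i ≠ 0 ∧ |a i| ≤ (H : ℤ)) ∧ ELS k s a}

/-- `y` is a real zero of `∑ aᵢ xᵢ ^ k`, scaled to have sup norm one. -/
def RealZero (k s : ℕ) (a : Fin s → ℤ) (y : Fin s → ℝ) : Prop :=
  (∀ i, |y i| ≤ 1) ∧ (∃ i, |y i| = 1) ∧ ∑ i, (a i : ℝ) * y i ^ k = 0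

/-- `u` is a `p`-adic zero of `∑ aᵢ xᵢ ^ k`, scaled to be integral and primitive. -/
def PadicZero (p : ℕ) [Fact p.Prime] (k s : ℕ) (a : Fin s → ℤ) (u : Fin s → ℤ_[p]) : Prop :=
  (∃ i, ‖u i‖ = 1) ∧ ∑ i, (a i : ℤ_[p]) * u i ^ k = 0

/-- Weak approximation to precision `m` by points of small height: for every real zero `y` and every
choice of `p`-adic zeros `u_p` there is a rational zero `x / t` which is `1/m`-close to `y` and
`p ^ (-m)`-close to `u_p` for every prime `p ≤ m`, with `x` integral, `x ≠ 0`, `|xᵢ| ^ k ≤ H`. -/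
def WeakApprox (k s m H : ℕ) (a : Fin s → ℤ) : Prop :=
  ∀ y : Fin s → ℝ, RealZero k s a y →
    ∀ u : (∀ (p : ℕ) [Fact p.Prime], Fin s → ℤ_[p]),
      (∀ (p : ℕ) [Fact p.Prime], p ≤ m → PadicZero p k s a (u p)) →
      ∃ (x : Fin s → ℤ) (t : ℤ), x ≠ 0 ∧ t ≠ 0 ∧ (∀ i, |x i| ^ k ≤ (H : ℤ)) ∧
        ∑ i, a i * x i ^ k = 0 ∧
        (∀ i, |(x i : ℝ) / t - y i| ≤ 1 / m) ∧
        ∀ (p : ℕ) [Fact p.Prime], p ≤ m → ∀ i,
          ‖(x i : ℚ_[p]) / t - (u p i : ℚ_[p])‖ ≤ (p : ℝ) ^ (-(m : ℤ))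

/-- Those members of `elsSet` which satisfy weak approximation to precision `m`. -/
def waSet (k s m H : ℕ) : Set (Fin s → ℤ) :=
  {a | a ∈ elsSet k s H ∧ WeakApprox k s m H a}

open Pool.Agent.H888.DH in
theorem weak_of_approx (k s m H : ℕ) (hm : 2 ≤ m) (a : Fin s → ℤ) (y : Fin s → ℝ)
    (hy : RealZero k s a y) (u : (∀ (p : ℕ) [Fact p.Prime], Fin s → ℤ_[p]))
    (h : ApproxQ k s m H a y (fun p hp => @u p hp)) :
    ∃ (x : Fin s → ℤ) (t : ℤ), x ≠ 0 ∧ t ≠ 0 ∧ (∀ i, |x i| ^ k ≤ (H : ℤ)) ∧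
        ∑ i, a i * x i ^ k = 0 ∧
        (∀ i, |(x i : ℝ) / t - y i| ≤ 1 / m) ∧
        ∀ (p : ℕ) [Fact p.Prime], p ≤ m → ∀ i,
          ‖(x i : ℚ_[p]) / t - (u p i : ℚ_[p])‖ ≤ (p : ℝ) ^ (-(m : ℤ)) := by
  obtain ⟨x, t, h1, h2, h3, h4, h5⟩ := h
  refine ⟨x, t, ?_, h1, h2, h3, h4, fun p hp hpm i => h5 p hp hpm i⟩
  intro hx
  obtain ⟨_, ⟨i, hi⟩, _⟩ := hy
  have h6 := h4 i
  rw [hx] at h6
  simp only [Pi.zero_apply, Int.cast_zero, zero_div, zero_sub, abs_neg] at h6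
  rw [hi] at h6
  have hmR : (2 : ℝ) ≤ m := by exact_mod_cast hm
  rw [le_div_iff₀ (by linarith)] at h6
  linarith

open Pool.Agent.H888.DH in
/-- The statement for a fixed precision `m`. -/
theorem fixed (k r' m : ℕ) (hk : 3 ≤ k) (hs : 2 * k + 2 ≤ r' + 2) (hm : 2 ≤ m) (ε : ℝ) (hε : 0 < ε) :
    ∃ H2 : ℕ, ∀ H : ℕ, H2 ≤ H →
      |((waSet k (r' + 2) m H).ncard : ℝ) / ((elsSet k (r' + 2) H).ncard : ℝ) - 1| < ε := by
  classical
  obtain ⟨c, hc, H1, hpos⟩ := positive_prop k r' hk (by omega)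
  obtain ⟨H0, hbd⟩ := wa_bound k (r' + 1) m hk (by omega) (by omega) (ε * c / 2) (by positivity)
  refine ⟨max H0 H1, ?_⟩
  intro H hH
  have hH0 : H0 ≤ H := (le_max_left _ _).trans hH
  have hH1 : H1 ≤ H := (le_max_right _ _).trans hH
  set E : Finset (Fin (r' + 2) → ℤ) :=
    (boxA (r' + 2) H).filter (fun a => (∀ i, a i ≠ 0) ∧ ELS k (r' + 2) a) with hE
  set G : Finset (Fin (r' + 2) → ℤ) := E.filter (fun a => WeakApprox k (r' + 2) m H a) with hG
  set N : Finset (Fin (r' + 2) → ℤ) := E.filter (fun a => ¬ WeakApprox k (r' + 2) m H a) with hN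
  have hEset : elsSet k (r' + 2) H = (E : Set (Fin (r' + 2) → ℤ)) := by
    ext a
    rw [hE]
    simp only [elsSet, Set.mem_ofPred_eq, Finset.coe_filter, mem_boxA]
    constructor
    · rintro ⟨h1, h2⟩
      exact ⟨fun i => (h1 i).2, fun i => (h1 i).1, h2⟩
    · rintro ⟨h1, h2, h3⟩
      exact ⟨fun i => ⟨h2 i, h1 i⟩, h3⟩
  have hGset : waSet k (r' + 2) m H = (G : Set (Fin (r' + 2) → ℤ)) := by
    ext a
    rw [hG]
    simp only [waSet, Set.mem_ofPred_eq, Finset.coe_filter]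
    rw [hEset]
    rfl
  rw [hEset, hGset, Set.ncard_coe_finset, Set.ncard_coe_finset]
  have hsum : (G.card : ℝ) + N.card = E.card := by
    exact_mod_cast Finset.card_filter_add_card_filter_not (s := E) (fun a => WeakApprox k (r' + 2) m H a)
  obtain ⟨S, hS, hScard⟩ := hpos H hH1
  have hSE : S ⊆ E := by
    intro a ha
    obtain ⟨h1, h2, h3, h4⟩ := hS a ha
    rw [hE, Finset.mem_filter]
    exact ⟨h1, h2, h4, fun p hp => h3 p hp⟩
  have hElow : c * (2 * (H : ℝ) + 1) ^ (r' + 2) ≤ E.card :=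
    hScard.trans (by exact_mod_cast Finset.card_le_card hSE)
  have hNup : (N.card : ℝ) ≤ ε * c / 2 * (H : ℝ) ^ (r' + 2) := by
    apply hbd H hH0 N
    intro a ha
    rw [hN, Finset.mem_filter, hE, Finset.mem_filter] at ha
    obtain ⟨⟨h1, h2, h3, h4⟩, h5⟩ := ha
    refine ⟨h1, fun p hp => h4 p, ?_⟩
    unfold WeakApprox at h5
    push Not at h5
    obtain ⟨y, hy, u, hu, hne⟩ := h5
    refine ⟨y, fun p hp => @u p hp, hy, ?_, ?_⟩
    · intro p hp hpm
      obtain ⟨⟨o, ho⟩, h6⟩ := hu p hpm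
      exact ⟨⟨o, PadicInt.isUnit_iff.mpr ho⟩, h6⟩
    · intro happ
      obtain ⟨x, t, g1, g2, g3, g4, g5, g6⟩ := weak_of_approx k (r' + 2) m H hm a y hy u happ
      obtain ⟨p, hp, hpm, i, hi⟩ := hne x t g1 g2 g3 g4 g5
      exact absurd (g6 p hpm i) (not_le.mpr hi)
  have hEpos : (0 : ℝ) < E.card := lt_of_lt_of_le (by positivity) hElow
  have hlt : (N.card : ℝ) < ε * E.card := by
    calc (N.card : ℝ) ≤ ε * c / 2 * (H : ℝ) ^ (r' + 2) := hNup
      _ ≤ ε * c / 2 * (2 * (H : ℝ) + 1) ^ (r' + 2) := by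
          gcongr
          have : (0 : ℝ) ≤ H := Nat.cast_nonneg H
          linarith
      _ = ε / 2 * (c * (2 * (H : ℝ) + 1) ^ (r' + 2)) := by ring
      _ ≤ ε / 2 * E.card := by gcongr
      _ < ε * E.card := by nlinarith
  have h6 : (G.card : ℝ) / E.card - 1 = -(N.card / E.card) := by
    rw [← hsum]
    have : (G.card : ℝ) + N.card ≠ 0 := by rw [hsum]; exact hEpos.ne'
    field_simp
    ring
  rw [h6, abs_neg, abs_of_nonneg (by positivity), div_lt_iff₀ hEpos]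
  exact hlt

/-- For `k ≥ 3` and `s ≥ 2k + 2`, one hundred percent of the everywhere locally soluble smooth
diagonal hypersurfaces of degree `k` in `s` variables over `ℚ` satisfy weak approximation to a
precision `m(H)` tending to infinity, by rational points of small height. -/
theorem result (k s : ℕ) (hk : 3 ≤ k) (hs : 2 * k + 2 ≤ s) :
    ∃ m : ℕ → ℕ, Tendsto m atTop atTop ∧
      Tendsto (fun H : ℕ => ((waSet k s (m H) H).ncard : ℝ) / ((elsSet k s H).ncard : ℝ))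
        atTop (𝓝 1) := by
  classical
  obtain ⟨r', rfl⟩ : ∃ r', s = r' + 2 := ⟨s - 2, by omega⟩
  have hj : ∀ j : ℕ, ∃ H2 : ℕ, ∀ H : ℕ, H2 ≤ H →
      |((waSet k (r' + 2) (j + 2) H).ncard : ℝ) / ((elsSet k (r' + 2) H).ncard : ℝ) - 1| <
        1 / ((j : ℝ) + 1) :=
    fun j => fixed k r' (j + 2) hk hs (by omega) _ (by positivity)
  choose H2 hH2 using hj
  set J : ℕ → ℕ := fun H => Nat.findGreatest (fun j => ∀ i ≤ j, H2 i ≤ H) H with hJ
  have hJge : ∀ j0 : ℕ, ∀ H : ℕ, max j0 ((Finset.range (j0 + 1)).sup H2) ≤ H → j0 ≤ J H := by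
    intro j0 H hH
    apply Nat.le_findGreatest ((le_max_left _ _).trans hH)
    intro i hi
    exact (Finset.le_sup (f := H2) (Finset.mem_range.mpr (by omega))).trans ((le_max_right _ _).trans hH)
  have hJspec : ∀ H : ℕ, H2 0 ≤ H → H2 (J H) ≤ H := by
    intro H hH
    have h1 : ∀ i ≤ J H, H2 i ≤ H := by
      apply Nat.findGreatest_spec (P := fun j => ∀ i ≤ j, H2 i ≤ H) (Nat.zero_le H)
      intro i hi
      have : i = 0 := by omega
      rw [this]; exact hH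
    exact h1 _ le_rfl
  have hJt : Tendsto J atTop atTop := by
    rw [tendsto_atTop_atTop]
    intro j0
    exact ⟨_, fun H hH => hJge j0 H hH⟩
  refine ⟨fun H => J H + 2, ?_, ?_⟩
  · exact tendsto_atTop_mono (fun H => Nat.le_add_right (J H) 2) hJt
  · rw [Metric.tendsto_atTop]
    intro ε hε
    obtain ⟨j0, hj0⟩ := exists_nat_gt (1 / ε)
    refine ⟨max (H2 0) (max j0 ((Finset.range (j0 + 1)).sup H2)), ?_⟩
    intro H hH
    have h1 := hJspec H ((le_max_left _ _).trans hH)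
    have h2 := hJge j0 H ((le_max_right _ _).trans hH)
    have h3 := hH2 (J H) H h1
    rw [Real.dist_eq]
    refine h3.trans ?_
    have h4 : (j0 : ℝ) ≤ J H := by exact_mod_cast h2
    rw [div_lt_iff₀ (by positivity)]
    rw [div_lt_iff₀ hε] at hj0
    nlinarith

end Pool.Agent.Results.MP_83e36b_nt.DiagonalWeakApprox100
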